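import Pool.Agent.N515.LM.Stm
import Pool.Agent.R508.DACBase

set_option autoImplicit false

/-! LM/1 (helper453): closed subgroups inside a small neighbourhood of a locally minimal abelian
group are minimal. -/

open Topology Set Filter
open scoped Pointwise

namespace Pool.Agent.N515.LM

open Pool.Agent.R508.DAC (exists_group_topology le_of_nhds_one_le tendsto_mul_one tendsto_inv_one)

lemma m1_mul_of_tendsto {G : Type} [Group G] {A B C : Filter G}
    (h : Tendsto (fun p : G × G => p.1 * p.2) (A ×ˢ B) C) : A * B ≤ C := by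
  intro U hU
  obtain ⟨S, hS, T, hT, hST⟩ := mem_prod_iff.1 (h hU)
  refine mem_of_superset (mul_mem_mul hS hT) ?_
  rintro _ ⟨a, ha, b, hb, rfl⟩
  exact hST (mk_mem_prod ha hb)

lemma m1_tendsto_of_mul {G : Type} [Group G] {A B C : Filter G} (h : A * B ≤ C) :
    Tendsto (fun p : G × G => p.1 * p.2) (A ×ˢ B) C := by
  intro U hU
  obtain ⟨S, hS, T, hT, hST⟩ := mem_mul.1 (h hU)
  refine mem_map.2 (mem_prod_iff.2 ⟨S, hS, T, hT, ?_⟩)
  rintro ⟨a, b⟩ ⟨ha, hb⟩
  exact hST ⟨a, ha, b, hb, rfl⟩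

lemma m1_nhds {G : Type} [Group G] [TopologicalSpace G] [IsTopologicalGroup G] (x : G) (O : Set G)
    (hO : IsClosed O) (hx : x ∉ O) : {u : G | u⁻¹ * x ∉ O} ∈ 𝓝 (1 : G) := by
  have h2 : Continuous fun u : G => u⁻¹ * x := by fun_prop
  have h3 : Oᶜ ∈ 𝓝 ((1 : G)⁻¹ * x) := by
    rw [inv_one, one_mul]
    exact hO.isOpen_compl.mem_nhds hx
  exact h2.continuousAt h3

lemma m1_nhds_sub {G : Type} [Group G] [TopologicalSpace G] [IsTopologicalGroup G]
    (N : Subgroup G) (x : N) (O : Set N) (hO : IsClosed O) (hx : x ∉ O) :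
    ∃ U ∈ 𝓝 (1 : G), ∀ u : N, (u : G) ∈ U → u⁻¹ * x ∉ O := by
  have h1 := m1_nhds x O hO hx
  have h2 : 𝓝 (1 : N) = comap (fun x : N => (x : G)) (𝓝 (1 : G)) := nhds_induced _ _
  rw [h2] at h1
  obtain ⟨U, hU, hU2⟩ := h1
  exact ⟨U, hU, fun u hu => hU2 hu⟩

lemma m1_reg {N : Type} [Group N] [TopologicalSpace N] [IsTopologicalGroup N] [T2Space N] (x : N)
    (hx : x ≠ 1) : ∃ O ∈ 𝓝 (1 : N), IsClosed O ∧ x ∉ O := by
  have h1 : ({x} : Set N)ᶜ ∈ 𝓝 (1 : N) := isClosed_singleton.isOpen_compl.mem_nhds (fun h => hx h.symm)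
  obtain ⟨O, hO, hOc, hOs⟩ := exists_mem_nhds_isClosed_subset h1
  exact ⟨O, hO, hOc, fun h => hOs h rfl⟩

lemma m1_clo {X : Type} {s t : TopologicalSpace X} (h : s ≤ t) {O : Set X} (hO : IsClosed[t] O) :
    IsClosed[s] O := hO.mono h

lemma m1_sub {G : Type} [Group G] [TopologicalSpace G] [IsTopologicalGroup G] (N : Subgroup G) :
    IsTopologicalGroup N := inferInstance

lemma m1_nhds_one {G : Type} [Group G] [TopologicalSpace G] (N : Subgroup G) :
    𝓝 (1 : N) = comap (fun x : N => (x : G)) (𝓝 (1 : G)) := nhds_induced _ _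

/-- **LM/1** -/
theorem t_LM1 : St_LM1 := by
  intro G _ τ _ _ V W hV hW hWV N hN hNW s hle hsg hs2
  set A : Filter G := 𝓝 (1 : G) with hA
  set n₁ : Filter N := @nhds N s 1 with hn₁
  set B : Filter G := Filter.map (fun x : N => (x : G)) n₁ with hB
  -- properties of the two filters
  have hAA : A * A ≤ A := m1_mul_of_tendsto tendsto_mul_one
  have hA1 : (1 : Filter G) ≤ A := pure_le_nhds 1
  have hnn : n₁ * n₁ ≤ n₁ := m1_mul_of_tendsto (@tendsto_mul_one N _ s hsg)
  have hBB : B * B ≤ B := by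
    have h1 : B * B = Filter.map (fun x : N => (x : G)) (n₁ * n₁) :=
      (Filter.map_mul N.subtype).symm
    rw [h1]
    exact Filter.map_mono hnn
  have hB1 : (1 : Filter G) ≤ B := by
    have h1 : pure (1 : N) ≤ n₁ := @pure_le_nhds N s 1
    have h2 := Filter.map_mono (m := fun x : N => (x : G)) h1
    rw [Filter.map_pure] at h2
    exact h2
  have hAi : A⁻¹ ≤ A := tendsto_inv_one
  have hBi : B⁻¹ ≤ B := by
    have h1 : Tendsto (fun x : N => x⁻¹) n₁ n₁ := @tendsto_inv_one N _ s hsg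
    have h2 : B⁻¹ = Filter.map (fun x : N => (x : G)) (Filter.map (fun x : N => x⁻¹) n₁) := by
      rw [Filter.map_map]
      rfl
    rw [h2]
    exact Filter.map_mono h1
  obtain ⟨σ, hσg, hσ⟩ := exists_group_topology (A * B)
    (by
      have : (1 : Filter G) * 1 ≤ A * B := mul_le_mul' hA1 hB1
      rwa [one_mul] at this)
    (m1_tendsto_of_mul (by
      calc A * B * (A * B) = (A * A) * (B * B) := mul_mul_mul_comm _ _ _ _
        _ ≤ A * B := mul_le_mul' hAA hBB))
    (by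
      have h1 : (A * B)⁻¹ ≤ A * B := by
        rw [mul_inv]
        exact mul_le_mul' hAi hBi
      exact h1)
    (fun g => by
      have : (fun x : G => g * x * g⁻¹) = id := by
        ext x
        simp [mul_comm g x]
      rw [this]
      exact tendsto_id)
  have hAF : A ≤ A * B := by
    calc A = A * 1 := (mul_one A).symm
      _ ≤ A * B := mul_le_mul' le_rfl hB1
  have hBF : B ≤ A * B := by
    calc B = 1 * B := (one_mul B).symm
      _ ≤ A * B := mul_le_mul' hA1 le_rfl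
  have hτσ : τ ≤ σ := le_of_nhds_one_le inferInstance hσg (by rw [hσ]; exact hAF)
  have hσ2 : @T2Space G σ := by
    refine @IsTopologicalGroup.t2Space_of_one_sep G σ _ hσg ?_
    intro x hx
    rw [hσ]
    by_contra hcon
    push Not at hcon
    -- `x` lies in `N`
    have hxN : x ∈ N := by
      by_contra hxN
      have h1 : {u : G | u⁻¹ * x ∉ (N : Set G)} ∈ A := @m1_nhds G _ τ _ x N hN hxN
      have h4 : range (fun x : N => (x : G)) ∈ B := range_mem_map
      obtain ⟨u, hu, n, ⟨n', rfl⟩, hun⟩ := hcon _ (mul_mem_mul h1 h4)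
      apply hu
      have : u⁻¹ * x = n' := by rw [← hun]; simp
      rw [this]
      exact n'.2
    have hx1 : (⟨x, hxN⟩ : N) ≠ 1 := fun h => hx (congrArg Subtype.val h)
    obtain ⟨O, hO, hOc, hOx⟩ := @m1_reg N _ s hsg hs2 ⟨x, hxN⟩ hx1
    obtain ⟨U, hU, hU2⟩ := @m1_nhds_sub G _ τ _ N ⟨x, hxN⟩ O (m1_clo hle hOc) hOx
    have h6 : (fun x : N => (x : G)) '' O ∈ B := image_mem_map hO
    obtain ⟨u, hu, _, ⟨o, ho, rfl⟩, huo⟩ := hcon _ (mul_mem_mul (show U ∈ A from hU) h6)
    have huN : u ∈ N := by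
      have : u = x * (o : G)⁻¹ := by rw [← huo]; simp
      rw [this]
      exact N.mul_mem hxN (N.inv_mem o.2)
    apply hU2 ⟨u, huN⟩ hu
    have h8 : (⟨u, huN⟩ : N)⁻¹ * ⟨x, hxN⟩ = o := by
      apply Subtype.ext
      change u⁻¹ * x = o
      rw [← huo]
      simp
    rw [h8]
    exact ho
  have hVσ : V ∈ @nhds G σ 1 := by
    rw [hσ]
    have h4 : range (fun x : N => (x : G)) ∈ B := range_mem_map
    refine mem_of_superset (mul_mem_mul hW h4) ?_
    refine (Set.mul_subset_mul_left ?_).trans hWV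
    rintro _ ⟨n, rfl⟩
    exact hNW n.2
  have hστ : σ = τ := hV σ hτσ hσg hσ2 hVσ
  refine le_antisymm ?_ hle
  have hNg := @m1_sub G _ τ _ N
  refine @le_of_nhds_one_le N _ s (@instTopologicalSpaceSubtype G (fun x => x ∈ N) τ) hsg hNg ?_
  rw [@m1_nhds_one G _ τ N, ← map_le_iff_le_comap]
  have h3 : @nhds G τ 1 = A * B := by rw [← hστ]; exact hσ
  rw [h3]
  exact hBF

end Pool.Agent.N515.LM
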