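import Pool.Agent.N515.LM.Stm

/-!
Project LM (helper515), leaf LM/2 (helper14): essential subgroups of uncountable powers have
uncountable tightness.
-/

set_option autoImplicit false

open Topology Set

namespace Pool.Agent.N515.LM

theorem t_LM2 : St_LM2 := by
  classical
  intro R _ _ _ _ _ hdense B hB H hH hT
  have h1 : ∀ b : B, ∃ l : R, l ≠ 0 ∧ (Pi.single b l : B → R) ∈ H := by
    intro b
    obtain ⟨l, h2, h3⟩ := hH (Pi.single b 1) (by
      intro h
      have := congrFun h b
      simp at this)
    have h4 : l • (Pi.single b (1 : R) : B → R) = Pi.single b l := by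
      rw [← Pi.single_smul, smul_eq_mul, mul_one]
    rw [h4] at h2 h3
    exact ⟨l, fun h => h3 (by rw [h, Pi.single_zero]), h2⟩
  choose l hl0 hlH using h1
  haveI hne : Nonempty B := by
    by_contra h
    haveI := not_nonempty_iff.1 h
    exact hB inferInstance
  obtain ⟨c, hcH, hc0⟩ := hH l (by
    intro h
    obtain ⟨b⟩ := hne
    exact hl0 b (congrFun h b))
  have hc : c ≠ 0 := by
    rintro rfl
    exact hc0 (zero_smul _ _)
  have hyb : ∀ b, (c • l) b ≠ 0 := fun b => by
    rw [Pi.smul_apply, smul_eq_mul]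
    exact mul_ne_zero hc (hl0 b)
  obtain ⟨A, hA⟩ : ∃ A : AddSubgroup (B → R),
      A = AddSubgroup.closure (range fun b => (Pi.single b (l b) : B → R)) := ⟨_, rfl⟩
  have hAH : A ≤ H := by
    rw [hA]
    refine (AddSubgroup.closure_le _).2 ?_
    rintro _ ⟨b, rfl⟩
    exact hlH b
  have hcl : (c • l) ∈ closure (A : Set (B → R)) := by
    rw [mem_closure_iff]
    intro U hU hyU
    obtain ⟨F, O, h2, h3⟩ := isOpen_pi_iff.1 hU _ hyU
    have h4 : ∀ b ∈ F, ∃ n : ℤ, (n : R) * l b ∈ O b := by
      intro b hb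
      have h5 : IsOpen {r : R | r * l b ∈ O b} := (h2 b hb).1.preimage (continuous_mul_const _)
      have h6 : c ∈ {r : R | r * l b ∈ O b} := (h2 b hb).2
      obtain ⟨n, hn⟩ := hdense.exists_mem_open h5 ⟨c, h6⟩
      exact ⟨n, hn⟩
    choose! n hn using h4
    refine ⟨∑ b ∈ F, n b • (Pi.single b (l b) : B → R), h3 ?_, ?_⟩
    · intro b hb
      have h5 : (∑ b ∈ F, n b • (Pi.single b (l b) : B → R)) b = n b * l b := by
        rw [Finset.sum_apply, Finset.sum_eq_single b]
        · rw [Pi.smul_apply, Pi.single_eq_same, zsmul_eq_mul]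
        · intro b' _ hbb
          rw [Pi.smul_apply, Pi.single_eq_of_ne hbb.symm, smul_zero]
        · intro h
          exact absurd hb h
      rw [h5]
      exact hn b hb
    · rw [SetLike.mem_coe]
      refine sum_mem fun b _ => zsmul_mem ?_ _
      rw [hA]
      exact AddSubgroup.subset_closure ⟨b, rfl⟩
  have hfin : ∀ z ∈ A, {b | z b ≠ 0}.Finite := by
    intro z hz
    rw [hA] at hz
    induction hz using AddSubgroup.closure_induction with
    | mem x hx =>
      obtain ⟨b, rfl⟩ := hx
      refine (finite_singleton b).subset ?_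
      intro b' hb'
      by_contra hne'
      exact hb' (Pi.single_eq_of_ne hne' _)
    | zero => simp
    | add x y _ _ hx hy =>
      refine (hx.union hy).subset ?_
      intro b hb
      by_contra hcon
      rw [mem_union, not_or] at hcon
      apply hb
      have e1 : x b = 0 := not_not.1 hcon.1
      have e2 : y b = 0 := not_not.1 hcon.2
      rw [Pi.add_apply, e1, e2, add_zero]
    | neg x _ hx =>
      refine hx.subset ?_
      intro b hb h0
      apply hb
      rw [Pi.neg_apply, h0, neg_zero]
  obtain ⟨A', hA'A, hcount, hy⟩ := hT A (c • l) hAH hcH hcl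
  have hS : (⋃ z ∈ A', {b | z b ≠ 0}).Countable :=
    hcount.biUnion fun z hz => (hfin z (hA'A hz)).countable
  obtain ⟨b, hb⟩ : ∃ b, b ∉ ⋃ z ∈ A', {b | z b ≠ 0} := by
    by_contra hcon
    push Not at hcon
    apply hB
    rw [← Set.countable_univ_iff]
    exact hS.mono fun b _ => hcon b
  have hU : IsOpen {z : B → R | z b ≠ 0} := isOpen_ne.preimage (continuous_apply b)
  obtain ⟨z, hz1, hz2⟩ := mem_closure_iff.1 hy _ hU (hyb b)
  exact hb (mem_biUnion hz2 hz1)

end Pool.Agent.N515.LM
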