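import Mathlib

set_option autoImplicit false

/-! MP_335999_gt (helper515): countable tightness in locally minimal groups. -/

open Topology Set
open scoped Pointwise

namespace Pool.Agent.N515.LM

/-- countable tightness -/
def CTight (X : Type) [TopologicalSpace X] : Prop :=
  ∀ (A : Set X) (x : X), x ∈ closure A → ∃ B ⊆ A, B.Countable ∧ x ∈ closure B

/-- no strictly coarser Hausdorff group topology -/
def Mini (G : Type) [Group G] [τ : TopologicalSpace G] : Prop :=
  ∀ σ : TopologicalSpace G, τ ≤ σ → @IsTopologicalGroup G σ _ → @T2Space G σ → σ = τ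

/-- no strictly coarser Hausdorff group topology in which `V` is a neighbourhood of `1` -/
def VMin (G : Type) [Group G] [τ : TopologicalSpace G] (V : Set G) : Prop :=
  ∀ σ : TopologicalSpace G, τ ≤ σ → @IsTopologicalGroup G σ _ → @T2Space G σ →
    V ∈ @nhds G σ 1 → σ = τ

/-- closed subgroups inside a small neighbourhood are minimal -/
def St_LM1 : Prop := ∀ (G : Type) [CommGroup G] [TopologicalSpace G] [IsTopologicalGroup G]
  [T2Space G] (V W : Set G), VMin G V → W ∈ 𝓝 (1 : G) → W * W ⊆ V →
  ∀ N : Subgroup G, IsClosed (N : Set G) → (N : Set G) ⊆ W → Mini N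

/-- tightness of essential subgroups of powers of `ZMod p` and `ℤ_[p]` -/
def St_LM2 : Prop := ∀ (R : Type) [CommRing R] [IsDomain R] [TopologicalSpace R]
  [IsTopologicalRing R] [T2Space R], DenseRange (fun n : ℤ => (n : R)) →
  ∀ (B : Type), ¬ Countable B → ∀ H : AddSubgroup (B → R),
  (∀ x : B → R, x ≠ 0 → ∃ l : R, l • x ∈ H ∧ l • x ≠ 0) →
  ¬ (∀ (A : Set (B → R)) (y : B → R), A ⊆ H → y ∈ H → y ∈ closure A →
    ∃ A' ⊆ A, A'.Countable ∧ y ∈ closure A')

/-- minimal abelian groups of countable tightness are metrizable -/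
def St_LM3 : Prop := ∀ (G : Type) [CommGroup G] [TopologicalSpace G] [IsTopologicalGroup G]
  [T2Space G], Mini G → CTight G → TopologicalSpace.MetrizableSpace G

/-- locally minimal abelian groups of countable tightness are metrizable -/
def St_LM4 : Prop := ∀ (G : Type) [CommGroup G] [TopologicalSpace G] [IsTopologicalGroup G]
  [T2Space G] (V : Set G), V ∈ 𝓝 (1 : G) → VMin G V → CTight G → TopologicalSpace.MetrizableSpace G

/-- finitely supported permutations of an uncountable set -/
def St_LM5 : Prop := ∃ (G : Type) (_ : Group G) (_ : TopologicalSpace G), IsTopologicalGroup G ∧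
  T2Space G ∧ Mini G ∧ FrechetUrysohnSpace G ∧ ¬ TopologicalSpace.MetrizableSpace G

end Pool.Agent.N515.LM
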