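import Mathlib
import Pool.Agent.N515.LM.Stm
import Pool.Agent.N485.MGCore
import Pool.Agent.Helper472.Lat_Chars
import Pool.Agent.R821.Duality
import Pool.Agent.H162R3.PR4

set_option autoImplicit false

/-! Minimal abelian groups of countable tightness are metrizable. -/

open Topology Set Filter

namespace Pool.Agent.N515.LM

open H162R3.PR

theorem m3_transfer {G Z M : Type} [AddCommGroup G] [TopologicalSpace G]
    [AddCommGroup Z] [TopologicalSpace Z] [IsTopologicalAddGroup Z] [T2Space Z]
    [AddCommGroup M] [TopologicalSpace M] [CompactSpace M] [T2Space M]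
    (hmin : MinimalGrp G) (ht : CTight G) (j : G →+ Z) (hj : IsEmbedding j)
    (h : M →+ Z) (hc : Continuous h) (hi : Function.Injective h)
    (hr : range h ⊆ closure (range j)) :
    ∃ H : AddSubgroup M,
      (∀ N : AddSubgroup M, IsClosed (N : Set M) → (∃ n ∈ N, n ≠ 0) → ∃ x ∈ N, x ∈ H ∧ x ≠ 0) ∧
      (∀ (A : Set M) (y : M), A ⊆ H → y ∈ H → y ∈ closure A →
        ∃ A' ⊆ A, A'.Countable ∧ y ∈ closure A') := by
  have hemb : IsClosedEmbedding h := hc.isClosedEmbedding hi
  refine ⟨AddSubgroup.comap h j.range, ?_, ?_⟩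
  · rintro N hN ⟨n, hn, hn0⟩
    obtain ⟨g, hg1, hg2⟩ := essential hmin j hj (N.map h)
      (by
        rw [AddSubgroup.coe_map]
        exact hemb.isClosedMap _ hN)
      (by
        rw [AddSubgroup.coe_map]
        exact (image_subset_range _ _).trans hr)
      ⟨h n, ⟨n, hn, rfl⟩, fun e => hn0 (hi (by rw [e, map_zero]))⟩
    obtain ⟨x, hx, hxg⟩ := hg1
    refine ⟨x, hx, ⟨g, hxg.symm⟩, ?_⟩
    rintro rfl
    exact hg2 (by rw [← hxg, map_zero])
  · intro A y hA hy hyA
    obtain ⟨g0, hg0⟩ := hy
    have e1 : j '' (j ⁻¹' (h '' A)) = h '' A := by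
      apply image_preimage_eq_of_subset
      rintro _ ⟨a, ha, rfl⟩
      exact hA ha
    have h1 : g0 ∈ closure (j ⁻¹' (h '' A)) := by
      rw [hj.closure_eq_preimage_closure_image, e1]
      show j g0 ∈ closure (h '' A)
      rw [hg0]
      exact image_closure_subset_closure_image hc ⟨y, hyA, rfl⟩
    obtain ⟨B, hB, hBc, hB0⟩ := ht _ _ h1
    refine ⟨A ∩ h ⁻¹' (j '' B), inter_subset_left, ?_, ?_⟩
    · exact ((hBc.image j).preimage_of_injOn hi.injOn).mono inter_subset_right
    · rw [hemb.isEmbedding.closure_eq_preimage_closure_image]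
      show h y ∈ closure (h '' (A ∩ h ⁻¹' (j '' B)))
      have e2 : h '' (A ∩ h ⁻¹' (j '' B)) = j '' B := by
        ext z
        constructor
        · rintro ⟨a, ⟨ha, hab⟩, rfl⟩
          exact hab
        · rintro ⟨b, hb, rfl⟩
          obtain ⟨a, ha, hab⟩ := hB hb
          exact ⟨a, ⟨ha, b, hb, hab.symm⟩, hab⟩
      rw [e2, ← hg0]
      exact image_closure_subset_closure_image hj.continuous ⟨g0, hB0, rfl⟩

theorem m3_countable (h2 : St_LM2) {X G : Type} [AddCommGroup X] [AddCommGroup G]
    [TopologicalSpace G] (hmin : MinimalGrp G) (ht : CTight G) (j : G →+ (X → UnitAddCircle))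
    (hj : IsEmbedding j)
    (hd : ∀ f : X → UnitAddCircle, (∀ a b, f (a + b) = f a + f b) → f ∈ closure (range j)) :
    Countable X := by
  by_contra hX
  obtain ⟨p, hp, B, hB, hcase⟩ := algebra_main X hX
  rcases hcase with ⟨φ, hφ⟩ | ⟨φ, hφ⟩
  · have : NeZero p := ⟨(Fact.out : p.Prime).ne_zero⟩
    obtain ⟨h, hc, hi, ha⟩ := exists_h (R := ZMod p) (P := ZMod p) (X := X) (B := B)
      (ZMod.toAddCircle (N := p)) (fun a => continuous_of_discreteTopology)
      (fun l hl => ⟨1, by simpa using hl⟩) φ hφ
    obtain ⟨H, hess, htt⟩ := m3_transfer hmin ht j hj h hc hi (by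
      rintro _ ⟨x, rfl⟩
      exact hd _ (ha x))
    refine h2 (ZMod p) (ZMod.intCast_surjective).denseRange B hB H ?_ htt
    intro x hx
    obtain ⟨y, ⟨l, hl⟩, hy1, hy2⟩ := hess ((LinearMap.toSpanSingleton (ZMod p) (B → ZMod p) x).toAddMonoidHom.range)
      (by
        have : IsCompact (range (LinearMap.toSpanSingleton (ZMod p) (B → ZMod p) x)) :=
          (finite_range _).isCompact
        exact this.isClosed)
      ⟨x, ⟨1, by simp⟩, hx⟩
    have hl' : l • x = y := hl
    exact ⟨l, hl' ▸ hy1, hl' ▸ hy2⟩
  · obtain ⟨ι, hι⟩ := exists_iota p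
    obtain ⟨h, hc, hi, ha⟩ := exists_h (R := ℤ_[p]) (P := Pr p) (X := X) (B := B) ι
      (by
        intro a
        obtain ⟨n, hn⟩ := Pr_torsion p a
        let g : ℤ_[p] →+ UnitAddCircle := ι.comp ((LinearMap.toSpanSingleton ℤ_[p] (Pr p) a).toAddMonoidHom)
        have hg : Continuous g := by
          apply continuous_of_continuousAt_zero g
          have : ∀ᶠ l in 𝓝 (0 : ℤ_[p]), g l = 0 := by
            have hball : Metric.ball (0 : ℤ_[p]) ((p:ℝ)^(-(n:ℤ))) ∈ 𝓝 (0 : ℤ_[p]) :=
              Metric.ball_mem_nhds _ (zpow_pos (by exact_mod_cast (Fact.out : p.Prime).pos) _)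
            filter_upwards [hball] with l hl
            rw [mem_ball_zero_iff] at hl
            have hl2 := (PadicInt.norm_le_pow_iff_mem_span_pow l n).1 hl.le
            rw [Ideal.mem_span_singleton] at hl2
            obtain ⟨m, rfl⟩ := hl2
            change ι (((p:ℤ_[p])^n * m) • a) = 0
            have : ((p:ℤ_[p])^n * m) • a = m • ((p^n : ℕ) • a) := by
              rw [mul_comm, mul_smul, ← Nat.cast_smul_eq_nsmul ℤ_[p]]
              push_cast; rfl
            rw [this, hn, smul_zero, map_zero]
          have h0 : g 0 = 0 := map_zero g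
          rw [ContinuousAt, h0]
          exact tendsto_const_nhds.congr' (this.mono fun l hl => hl.symm)
        exact hg)
      (fun l hl => by
        obtain ⟨a, ha⟩ := exists_smul_ne p l hl
        exact ⟨a, fun e => ha (hι (by rw [e, map_zero]))⟩) φ hφ
    obtain ⟨H, hess, htt⟩ := m3_transfer hmin ht j hj h hc hi (by
      rintro _ ⟨x, rfl⟩
      exact hd _ (ha x))
    refine h2 ℤ_[p] PadicInt.denseRange_intCast B hB H ?_ htt
    intro x hx
    obtain ⟨y, ⟨l, hl⟩, hy1, hy2⟩ := hess ((LinearMap.toSpanSingleton ℤ_[p] (B → ℤ_[p]) x).toAddMonoidHom.range)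
      (by
        have : IsCompact (range (LinearMap.toSpanSingleton ℤ_[p] (B → ℤ_[p]) x)) := by
          apply isCompact_range
          refine continuous_pi fun b => ?_
          change Continuous fun l : ℤ_[p] => l * x b
          exact continuous_id.mul continuous_const
        exact this.isClosed)
      ⟨x, ⟨1, by simp⟩, hx⟩
    have hl' : l • x = y := hl
    exact ⟨l, hl' ▸ hy1, hl' ▸ hy2⟩

/-- the circle as a space -/
noncomputable def m3_c : UnitAddCircle ≃ₜ Circle := AddCircle.homeomorphCircle (T := 1) one_ne_zero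

theorem m3_c_add (a b : UnitAddCircle) : m3_c (a + b) = m3_c a * m3_c b := by
  unfold m3_c
  rw [AddCircle.homeomorphCircle_apply, AddCircle.homeomorphCircle_apply,
    AddCircle.homeomorphCircle_apply, AddCircle.toCircle_add]

/-- the additive character attached to a circle-valued one -/
noncomputable def m3_add {B : Type} [CommGroup B] [TopologicalSpace B]
    (χ : ContinuousMonoidHom B Circle) : Additive B →+ UnitAddCircle :=
  AddMonoidHom.mk' (fun x => m3_c.symm (χ x.toMul)) (by
    intro a b
    apply m3_c.injective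
    rw [m3_c_add, Homeomorph.apply_symm_apply, Homeomorph.apply_symm_apply,
      Homeomorph.apply_symm_apply, toMul_add, map_mul])

theorem m3_add_cont {B : Type} [CommGroup B] [TopologicalSpace B]
    (χ : ContinuousMonoidHom B Circle) : Continuous (m3_add χ) :=
  m3_c.symm.continuous.comp (χ.continuous_toFun)

theorem m3_add_eq {B : Type} [CommGroup B] [TopologicalSpace B]
    (χ : ContinuousMonoidHom B Circle) (x : Additive B) (h : m3_add χ x = 0) :
    χ x.toMul = 1 := by
  have h1 : m3_c.symm (χ x.toMul) = 0 := h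
  have h2 : m3_c (m3_c.symm (χ x.toMul)) = m3_c 0 := by rw [h1]
  rw [Homeomorph.apply_symm_apply] at h2
  rw [h2]
  unfold m3_c
  rw [AddCircle.homeomorphCircle_apply, AddCircle.toCircle_zero]

theorem t_LM3 (h2 : St_LM2) : St_LM3 := by
  intro G _ _ _ _ hmin ht
  obtain ⟨B, _, _, hB1, hB2, hB3, i, hi, hid⟩ := Pool.Agent.N485.MG.exists_compact G hmin
  let X : AddSubgroup (Additive B →+ UnitAddCircle) :=
    { carrier := {f | Continuous f}
      zero_mem' := continuous_const
      add_mem' := fun ha hb => ha.add hb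
      neg_mem' := fun ha => ha.neg }
  let ev : Additive B →+ (X → UnitAddCircle) :=
    { toFun := fun k x => (x : Additive B →+ UnitAddCircle) k
      map_zero' := by funext x; exact map_zero _
      map_add' := fun a b => by funext x; exact map_add _ _ _ }
  have hevc : Continuous ev := continuous_pi fun x => x.2
  have hevi : Function.Injective ev := by
    rw [injective_iff_map_eq_zero]
    intro k hk
    by_contra hk0
    obtain ⟨χ, hχ⟩ := Pool.LatH472.chars (K := B) k.toMul (fun e => hk0 (by
      rw [← toMul_zero] at e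
      exact Additive.toMul.injective e))
    exact hχ (m3_add_eq χ k (congrFun hk ⟨m3_add χ, m3_add_cont χ⟩))
  have hev : IsClosedEmbedding ev := hevc.isClosedEmbedding hevi
  let i' : Additive G →+ Additive B := MonoidHom.toAdditive i
  have hi' : IsEmbedding i' := hi
  have hid' : DenseRange i' := hid
  let j : Additive G →+ (X → UnitAddCircle) := ev.comp i'
  have hj : IsEmbedding j := hev.isEmbedding.comp hi'
  have hmin' : MinimalGrp (Additive G) := by
    intro t ht1 ht2 ht3
    have a1 := ht2.continuous_add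
    have a2 := ht2.continuous_neg
    exact hmin t ht1 (@IsTopologicalGroup.mk G t _ (@ContinuousMul.mk G t _ a1)
      (@ContinuousInv.mk G t _ a2)) ht3
  have ht' : CTight (Additive G) := ht
  have hX : Countable X := by
    refine m3_countable h2 hmin' ht' j hj ?_
    intro f hf
    have h1 := Pool.Agent.R821.dense_hom (X := X) ev.range (by
      rintro _ ⟨k, rfl⟩ x y
      rfl) (by
      intro x hx
      by_contra hcon
      push Not at hcon
      apply hx
      apply Subtype.ext
      ext k
      exact hcon (ev k) ⟨k, rfl⟩) f hf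
    rw [AddMonoidHom.coe_range, hev.isClosed_range.closure_eq] at h1
    obtain ⟨k, rfl⟩ := h1
    have h3 : k ∈ closure (range i') := hid' k
    have h4 := image_closure_subset_closure_image hevc ⟨k, h3, rfl⟩
    rwa [← range_comp] at h4
  have hM : TopologicalSpace.MetrizableSpace (X → UnitAddCircle) :=
    TopologicalSpace.metrizableSpace_of_t3_secondCountable _
  exact (show TopologicalSpace.MetrizableSpace (Additive G) from hj.metrizableSpace)

end Pool.Agent.N515.LM
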