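import Pool.Agent.N515.LM.Stm
import Pool.Agent.R508.DACBase

set_option autoImplicit false

/-! MP_335999_gt (helper515): locally minimal abelian groups of countable tightness are metrizable. -/

open Topology Set Filter
open scoped Pointwise

namespace Pool.Agent.N515.LM

lemma m4_half {G : Type} [Group G] [TopologicalSpace G] [IsTopologicalGroup G] (U : Set G)
    (hU : U ∈ 𝓝 (1 : G)) : ∃ W ∈ 𝓝 (1 : G), W⁻¹ = W ∧ W * W ⊆ U := by
  obtain ⟨V, hV, h1, hVU⟩ := exists_open_nhds_one_mul_subset hU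
  refine ⟨V ∩ V⁻¹, ?_, ?_, ?_⟩
  · have hVn : V ∈ 𝓝 (1 : G) := hV.mem_nhds h1
    exact inter_mem hVn (inv_mem_nhds_one G hVn)
  · rw [Set.inter_inv, inv_inv, Set.inter_comm]
  · exact (Set.mul_subset_mul Set.inter_subset_left Set.inter_subset_left).trans hVU

lemma m4_seq {G : Type} [Group G] [TopologicalSpace G] [IsTopologicalGroup G] (P : ℕ → Set G)
    (hP : ∀ n, P n ∈ 𝓝 (1 : G)) : ∃ Q : ℕ → Set G, (∀ n, Q n ∈ 𝓝 (1 : G)) ∧
      (∀ n, (Q n)⁻¹ = Q n) ∧ (∀ n, Q n ⊆ P n) ∧ ∀ n, Q (n + 1) * Q (n + 1) ⊆ Q n := by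
  classical
  have h : ∀ U : {U : Set G // U ∈ 𝓝 (1 : G)}, ∃ W : {U : Set G // U ∈ 𝓝 (1 : G)},
      (W : Set G)⁻¹ = W ∧ (W : Set G) * W ⊆ U := by
    intro U
    obtain ⟨W, h1, h2, h3⟩ := m4_half (U : Set G) U.2
    exact ⟨⟨W, h1⟩, h2, h3⟩
  choose hf hf1 hf2 using h
  have hone : ∀ U : {U : Set G // U ∈ 𝓝 (1 : G)}, (hf U : Set G) ⊆ U := by
    intro U x hx
    have h1 : (1 : G) ∈ (hf U : Set G) := mem_of_mem_nhds (hf U).2
    have := hf2 U (Set.mul_mem_mul hx h1)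
    rwa [mul_one] at this
  let Q : ℕ → {U : Set G // U ∈ 𝓝 (1 : G)} := fun n =>
    @Nat.rec (fun _ => {U : Set G // U ∈ 𝓝 (1 : G)}) (hf ⟨P 0, hP 0⟩)
      (fun n W => hf ⟨W.1 ∩ P (n + 1), inter_mem W.2 (hP (n + 1))⟩) n
  have hQ0 : Q 0 = hf ⟨P 0, hP 0⟩ := rfl
  have hQs : ∀ n, Q (n + 1) = hf ⟨(Q n).1 ∩ P (n + 1), inter_mem (Q n).2 (hP (n + 1))⟩ :=
    fun n => rfl
  refine ⟨fun n => (Q n : Set G), fun n => (Q n).2, fun n => ?_, fun n => ?_, fun n => ?_⟩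
  · rcases n with _ | n
    · show ((Q 0 : Set G))⁻¹ = Q 0
      rw [hQ0, hf1]
    · show ((Q (n + 1) : Set G))⁻¹ = Q (n + 1)
      rw [hQs, hf1]
  · rcases n with _ | n
    · show (Q 0 : Set G) ⊆ P 0
      rw [hQ0]
      exact hone _
    · show (Q (n + 1) : Set G) ⊆ P (n + 1)
      rw [hQs]
      exact (hone _).trans Set.inter_subset_right
  · show (Q (n + 1) : Set G) * (Q (n + 1) : Set G) ⊆ Q n
    rw [hQs]
    exact (hf2 _).trans Set.inter_subset_left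

/-- the subgroup `⋂ W n` -/
def m4_sub {G : Type} [Group G] (W : ℕ → Set G) (h1 : ∀ n, (1 : G) ∈ W n)
    (hs : ∀ n, (W n)⁻¹ = W n) (hm : ∀ n, W (n + 1) * W (n + 1) ⊆ W n) : Subgroup G where
  carrier := {x | ∀ n, x ∈ W n}
  mul_mem' := fun {a b} ha hb n => hm n (Set.mul_mem_mul (ha (n + 1)) (hb (n + 1)))
  one_mem' := h1
  inv_mem' := fun {a} ha n => by
    have := ha n
    rw [← hs n, Set.mem_inv, inv_inv]
    exact this

lemma m4_closed {G : Type} [Group G] [TopologicalSpace G] [IsTopologicalGroup G] (W : ℕ → Set G)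
    (hW : ∀ n, W n ∈ 𝓝 (1 : G)) (h1 : ∀ n, (1 : G) ∈ W n)
    (hs : ∀ n, (W n)⁻¹ = W n) (hm : ∀ n, W (n + 1) * W (n + 1) ⊆ W n) :
    IsClosed (m4_sub W h1 hs hm : Set G) := by
  refine isClosed_of_closure_subset ?_
  intro x hx n
  rw [mem_closure_iff_nhds] at hx
  have hc : Continuous fun z : G => z⁻¹ * x := by fun_prop
  have ht : (fun z : G => z⁻¹ * x) ⁻¹' W (n + 1) ∈ 𝓝 x := by
    refine hc.continuousAt.preimage_mem_nhds ?_
    simpa using hW (n + 1)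
  obtain ⟨y, hy1, hy2⟩ := hx _ ht
  have hy3 : y ∈ W (n + 1) := hy2 (n + 1)
  have hy4 : y⁻¹ * x ∈ W (n + 1) := hy1
  have := hm n (Set.mul_mem_mul hy3 hy4)
  rwa [mul_inv_cancel_left] at this

lemma m4_tight {G : Type} [TopologicalSpace G] (N : Set G) (h : CTight G) : CTight N := by
  intro A x hx
  rw [closure_subtype] at hx
  obtain ⟨B, hBA, hBc, hxB⟩ := h _ _ hx
  refine ⟨Subtype.val ⁻¹' B, ?_, ?_, ?_⟩
  · intro y hy
    obtain ⟨z, hz, hzy⟩ := hBA hy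
    rwa [← Subtype.val_injective hzy]
  · exact hBc.preimage_of_injOn (Subtype.val_injective.injOn)
  · rw [closure_subtype]
    have : Subtype.val '' (Subtype.val ⁻¹' B : Set N) = B := by
      rw [Set.image_preimage_eq_inter_range]
      refine Set.inter_eq_left.2 fun y hy => ?_
      obtain ⟨z, -, hzy⟩ := hBA hy
      exact ⟨z, hzy⟩
    rwa [this]

lemma m4_met {G : Type} [CommGroup G] [TopologicalSpace G] [IsTopologicalGroup G] [T2Space G]
    (h : (𝓝 (1 : G)).IsCountablyGenerated) : TopologicalSpace.MetrizableSpace G := by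
  let _ : UniformSpace G := IsTopologicalGroup.rightUniformSpace G
  have _ : IsUniformGroup G := isUniformGroup_of_commGroup
  have _ := h
  have _ : (uniformity G).IsCountablyGenerated := IsUniformGroup.uniformity_countably_generated
  exact UniformSpace.metrizableSpace

lemma m4_core {G : Type} [CommGroup G] [τ : TopologicalSpace G] [hτ : IsTopologicalGroup G]
    {V : Set G} (hVM : VMin G V) (Q : ℕ → Set G) (hQ : ∀ n, Q n ∈ 𝓝 (1 : G))
    (hQ1 : ∀ n, (1 : G) ∈ Q n) (hQs : ∀ n, (Q n)⁻¹ = Q n)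
    (hQm : ∀ n, Q (n + 1) * Q (n + 1) ⊆ Q n) (hQsep : ∀ x : G, x ≠ 1 → ∃ n, x ∉ Q n)
    (hQV : Q 0 ⊆ V) : 𝓝 (1 : G) = ⨅ n, 𝓟 (Q n) := by
  have hQanti : Antitone Q := by
    refine antitone_nat_of_succ_le fun n => ?_
    intro x hx
    have := hQm n (Set.mul_mem_mul hx (hQ1 (n + 1)))
    rwa [mul_one] at this
  have hbas : (⨅ n, 𝓟 (Q n)).HasBasis (fun _ : ℕ => True) Q :=
    hasBasis_iInf_principal hQanti.directed_ge
  have hle0 : 𝓝 (1 : G) ≤ ⨅ n, 𝓟 (Q n) := by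
    rw [le_iInf_iff]
    intro n
    rw [le_principal_iff]
    exact hQ n
  obtain ⟨σ, hσg, hσ1⟩ := Pool.Agent.R508.DAC.exists_group_topology (⨅ n, 𝓟 (Q n))
    (by
      rw [le_iInf_iff]
      intro n
      rw [le_principal_iff, mem_pure]
      exact hQ1 n)
    (by
      rw [(hbas.prod_self).tendsto_iff hbas]
      intro n _
      refine ⟨n + 1, trivial, ?_⟩
      rintro ⟨a, b⟩ hab
      exact hQm n (Set.mul_mem_mul hab.1 hab.2))
    (by
      rw [hbas.tendsto_iff hbas]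
      intro n _
      refine ⟨n, trivial, ?_⟩
      intro x hx
      rw [← hQs n, Set.mem_inv, inv_inv]
      exact hx)
    (by
      intro g
      have : (fun x : G => g * x * g⁻¹) = id := by
        funext x
        rw [mul_comm g x, mul_inv_cancel_right]
        rfl
      rw [this]
      exact tendsto_id)
  have hle1 : @nhds G τ 1 ≤ @nhds G σ 1 := by
    rw [hσ1]
    exact hle0
  have hle : τ ≤ σ := Pool.Agent.R508.DAC.le_of_nhds_one_le hτ hσg hle1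
  have hT2 : @T2Space G σ := by
    refine @IsTopologicalGroup.t2Space_of_one_sep G σ _ hσg ?_
    intro x hx
    obtain ⟨n, hn⟩ := hQsep x hx
    refine ⟨Q n, ?_, hn⟩
    rw [hσ1]
    exact hbas.mem_of_mem trivial
  have hVσ : V ∈ @nhds G σ 1 := by
    rw [hσ1]
    exact mem_of_superset (hbas.mem_of_mem (i := 0) trivial) hQV
  have heq : σ = τ := hVM σ hle hσg hT2 hVσ
  rw [← heq]
  exact hσ1

theorem t_LM4 (h1 : St_LM1) (h3 : St_LM3) : St_LM4 := by
  intro G _ τ _ _ V hV hVM hCT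
  obtain ⟨W0, hW0, -, hW0V⟩ := m4_half V hV
  obtain ⟨W, hW, hWs, hWW0, hWm⟩ := m4_seq (fun _ => W0) (fun _ => hW0)
  have hW1 : ∀ n, (1 : G) ∈ W n := fun n => mem_of_mem_nhds (hW n)
  obtain ⟨N, hN⟩ : ∃ N : Subgroup G, N = m4_sub W hW1 hWs hWm := ⟨_, rfl⟩
  have hNc : IsClosed (N : Set G) := by
    rw [hN]
    exact m4_closed W hW hW1 hWs hWm
  have hNmem : ∀ x : G, (∀ n, x ∈ W n) → x ∈ N := by
    intro x hx
    rw [hN]
    exact hx
  have hNW : (N : Set G) ⊆ W0 := by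
    intro x hx
    rw [hN] at hx
    exact hWW0 0 (hx 0)
  have hmini : Mini N := h1 G V W0 hVM hW0 hW0V N hNc hNW
  have hNt : CTight N := m4_tight (N : Set G) hCT
  have hmet : TopologicalSpace.MetrizableSpace N := h3 N hmini hNt
  obtain ⟨u, hu⟩ := (𝓝 (1 : N)).exists_antitone_basis
  have hP : ∀ n, ∃ P ∈ 𝓝 (1 : G), (Subtype.val ⁻¹' P : Set N) ⊆ u n := by
    intro n
    have h2 : u n ∈ 𝓝 (1 : N) := hu.1.mem_of_mem trivial
    rw [nhds_subtype_eq_comap] at h2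
    exact h2
  choose P hP1 hP2 using hP
  obtain ⟨Q, hQ, hQs, hQP, hQm⟩ := m4_seq (fun n => W n ∩ P n) (fun n => inter_mem (hW n) (hP1 n))
  have hQ1 : ∀ n, (1 : G) ∈ Q n := fun n => mem_of_mem_nhds (hQ n)
  have hQsep : ∀ x : G, x ≠ 1 → ∃ n, x ∉ Q n := by
    intro x hx
    by_contra hcon
    push Not at hcon
    have hxN : x ∈ N := hNmem x fun n => (hQP n (hcon n)).1
    have hne : (⟨x, hxN⟩ : N) ≠ 1 := by
      intro h
      exact hx (congrArg Subtype.val h)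
    have h5 : ({(⟨x, hxN⟩ : N)}ᶜ : Set N) ∈ 𝓝 (1 : N) := isOpen_compl_singleton.mem_nhds (by
      simpa using hne.symm)
    obtain ⟨n, -, hn⟩ := hu.1.mem_iff.1 h5
    have h6 : (⟨x, hxN⟩ : N) ∈ u n := hP2 n (hQP n (hcon n)).2
    exact hn h6 rfl
  have hfin : 𝓝 (1 : G) = ⨅ n, 𝓟 (Q n) :=
    m4_core (V := V) hVM Q hQ hQ1 hQs hQm hQsep (by
      intro x hx
      have h5 : x ∈ W0 := hWW0 0 (hQP 0 hx).1
      have h6 := hW0V (Set.mul_mem_mul h5 (mem_of_mem_nhds hW0))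
      rwa [mul_one] at h6)
  refine m4_met ?_
  rw [hfin]
  exact isCountablyGenerated_of_seq ⟨Q, rfl⟩

end Pool.Agent.N515.LM
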