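import Mathlib
import Pool.Agent.N515.LM.Stm

/-!
# LM/5: finitely supported permutations of an uncountable set (helper701)
-/

set_option autoImplicit false

namespace Pool.Agent.N515.LM.M5

open Topology Set Filter

/-- an uncountable set without structure -/
def X : Type := ℝ

noncomputable instance : DecidableEq X := Classical.decEq _

instance : TopologicalSpace X := ⊥

instance : DiscreteTopology X := ⟨rfl⟩

instance : Uncountable X := inferInstanceAs (Uncountable ℝ)

instance : Infinite X := inferInstanceAs (Infinite ℝ)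

/-- the finitely supported permutations -/
def S : Subgroup (Equiv.Perm X) where
  carrier := {g | {x | g x ≠ x}.Finite}
  mul_mem' := by
    intro a b ha hb
    refine (Set.Finite.union ha hb).subset ?_
    intro x hx
    by_contra h
    simp only [mem_union, Set.mem_ofPred_eq, not_or, not_not] at h
    apply hx
    rw [Equiv.Perm.mul_apply, h.2, h.1]
  one_mem' := by simp
  inv_mem' := by
    intro a ha
    refine Set.Finite.subset ha ?_
    intro x hx h
    apply hx
    rw [Equiv.Perm.inv_eq_iff_eq]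
    exact h.symm

/-- the group -/
def G : Type := ↥S

noncomputable instance : Group G := inferInstanceAs (Group ↥S)

/-- the action -/
def ap (g : G) (x : X) : X := (g.1 : Equiv.Perm X) x

@[simp] lemma ap_mul (g h : G) (x : X) : ap (g * h) x = ap g (ap h x) := rfl

@[simp] lemma ap_one (x : X) : ap (1 : G) x = x := rfl

lemma ap_inj (g : G) {x y : X} (h : ap g x = ap g y) : x = y := g.1.injective h

@[simp] lemma ap_inv_ap (g : G) (x : X) : ap g⁻¹ (ap g x) = x := by
  rw [← ap_mul, inv_mul_cancel, ap_one]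

@[simp] lemma ap_ap_inv (g : G) (x : X) : ap g (ap g⁻¹ x) = x := by
  rw [← ap_mul, mul_inv_cancel, ap_one]

lemma ext {g h : G} (H : ∀ x, ap g x = ap h x) : g = h := Subtype.ext (Equiv.ext H)

lemma fin_ne (g : G) : {x | ap g x ≠ x}.Finite := g.2

lemma fin_ne2 (g h : G) : {x | ap g x ≠ ap h x}.Finite := by
  refine ((fin_ne g).union (fin_ne h)).subset ?_
  intro x hx
  by_contra H
  simp only [mem_union, Set.mem_ofPred_eq, not_or, not_not] at H
  exact hx (H.1.trans H.2.symm)

instance : TopologicalSpace G := TopologicalSpace.induced ap inferInstance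

lemma mem_nhds_iff' (g : G) (U : Set G) :
    U ∈ 𝓝 g ↔ ∃ F : Finset X, ∀ h : G, (∀ x ∈ F, ap h x = ap g x) → h ∈ U := by
  rw [nhds_induced, nhds_pi]
  constructor
  · rintro ⟨V, hV, hVU⟩
    rw [Filter.mem_pi] at hV
    obtain ⟨I, hI, t, ht, htV⟩ := hV
    refine ⟨hI.toFinset, fun h hh => hVU (htV ?_)⟩
    intro x hx
    rw [hh x (hI.mem_toFinset.2 hx)]
    exact mem_of_mem_nhds (ht x)
  · rintro ⟨F, hF⟩
    refine ⟨(F : Set X).pi (fun x => {ap g x}), ?_, ?_⟩
    · exact Filter.pi_mem_pi F.finite_toSet (fun x _ => by rw [nhds_discrete]; exact mem_pure.2 rfl)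
    · intro h hh
      exact hF h fun x hx => hh x hx

lemma ev_eq (g : G) (x : X) : ∀ᶠ h in 𝓝 g, ap h x = ap g x :=
  (mem_nhds_iff' g _).2 ⟨{x}, fun h hh => hh x (Finset.mem_singleton_self x)⟩

lemma cont_of {Y : Type} [TopologicalSpace Y] {f : Y → G}
    (h : ∀ y x, ∀ᶠ z in 𝓝 y, ap (f z) x = ap (f y) x) : Continuous f := by
  rw [continuous_iff_continuousAt]
  intro y U hU
  obtain ⟨F, hF⟩ := (mem_nhds_iff' _ _).1 hU
  have h1 : ∀ᶠ z in 𝓝 y, ∀ x ∈ F, ap (f z) x = ap (f y) x :=
    (Filter.eventually_all_finset F).2 fun x _ => h y x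
  exact Filter.mem_map.2 (h1.mono fun z hz => hF _ hz)

instance : IsTopologicalGroup G where
  continuous_mul := by
    refine cont_of ?_
    rintro ⟨g, h⟩ x
    have h1 : ∀ᶠ p : G × G in 𝓝 (g, h), ap p.1 (ap h x) = ap g (ap h x) :=
      (continuous_fst.tendsto (g, h)).eventually (ev_eq g (ap h x))
    have h2 : ∀ᶠ p : G × G in 𝓝 (g, h), ap p.2 x = ap h x :=
      (continuous_snd.tendsto (g, h)).eventually (ev_eq h x)
    filter_upwards [h1, h2] with p hp1 hp2
    rw [ap_mul, ap_mul, hp2, hp1]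
  continuous_inv := by
    refine cont_of ?_
    intro g x
    filter_upwards [ev_eq g (ap g⁻¹ x)] with h hh
    rw [ap_ap_inv] at hh
    conv_lhs => rw [← hh]
    rw [ap_inv_ap]

instance : T2Space G :=
  T2Space.of_injective_continuous (f := ap) (fun g h H => ext fun x => congrFun H x)
    continuous_induced_dom

/-- the transposition -/
noncomputable def sw (a b : X) : G := ⟨Equiv.swap a b, by
  refine Set.Finite.subset (s := {a, b}) (by simp) ?_
  intro x hx
  by_contra h
  simp only [mem_insert_iff, mem_singleton_iff, not_or] at h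
  exact hx (Equiv.swap_apply_of_ne_of_ne h.1 h.2)⟩

@[simp] lemma sw_left (a b : X) : ap (sw a b) a = b := Equiv.swap_apply_left a b

@[simp] lemma sw_right (a b : X) : ap (sw a b) b = a := Equiv.swap_apply_right a b

lemma sw_ne {a b x : X} (h1 : x ≠ a) (h2 : x ≠ b) : ap (sw a b) x = x :=
  Equiv.swap_apply_of_ne_of_ne h1 h2

lemma sw_conj (g : G) (a b : X) : g * sw a b * g⁻¹ = sw (ap g a) (ap g b) := by
  apply ext
  intro x
  rw [ap_mul, ap_mul]
  by_cases h1 : x = ap g a
  · rw [h1, ap_inv_ap, sw_left, sw_left]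
  by_cases h2 : x = ap g b
  · rw [h2, ap_inv_ap, sw_right, sw_right]
  rw [sw_ne h1 h2, sw_ne, ap_ap_inv]
  · intro h
    apply h1
    rw [← h, ap_ap_inv]
  · intro h
    apply h2
    rw [← h, ap_ap_inv]

lemma not_metr : ¬ TopologicalSpace.MetrizableSpace G := by
  intro hm
  have hfc : (𝓝 (1 : G)).IsCountablyGenerated := inferInstance
  obtain ⟨U, hU⟩ := (𝓝 (1 : G)).exists_antitone_basis
  have h1 : ∀ n, ∃ F : Finset X, ∀ h : G, (∀ x ∈ F, ap h x = ap 1 x) → h ∈ U n := fun n =>
    (mem_nhds_iff' _ _).1 (hU.1.mem_of_mem trivial)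
  choose F hF using h1
  have hc : (⋃ n, (F n : Set X)).Countable := countable_iUnion fun n => (F n).countable_toSet
  obtain ⟨x, hx⟩ : ∃ x, x ∉ ⋃ n, (F n : Set X) := by
    by_contra h
    push Not at h
    exact not_countable_univ (hc.mono fun x _ => h x)
  have hc2 : ((⋃ n, (F n : Set X)) ∪ {x}).Countable := hc.union (countable_singleton x)
  obtain ⟨y, hy⟩ : ∃ y, y ∉ (⋃ n, (F n : Set X)) ∪ {x} := by
    by_contra h
    push Not at h
    exact not_countable_univ (hc2.mono fun x _ => h x)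
  have h2 : {g : G | ap g x = x} ∈ 𝓝 (1 : G) := ev_eq 1 x
  obtain ⟨n, -, hn⟩ := hU.1.mem_iff.1 h2
  have h3 : sw x y ∈ U n := by
    refine hF n _ fun z hz => ?_
    rw [ap_one]
    apply sw_ne
    · rintro rfl
      exact hx (mem_iUnion.2 ⟨n, hz⟩)
    · rintro rfl
      exact hy (Or.inl (mem_iUnion.2 ⟨n, hz⟩))
  have h4 : ap (sw x y) x = x := hn h3
  rw [sw_left] at h4
  exact hy (Or.inr h4)

lemma fu : FrechetUrysohnSpace G := by
  refine ⟨fun A g hg => ?_⟩
  classical
  obtain ⟨f, hf, hr⟩ := exists_seq_of_forall_finset_exists (fun a : G => a ∈ A)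
    (fun a b => ∀ x, ap a x ≠ ap g x → ap b x = ap g x) (by
      intro s _
      have hfin : (⋃ a ∈ s, {x | ap a x ≠ ap g x}).Finite :=
        Set.Finite.biUnion s.finite_toSet fun a _ => fin_ne2 a g
      have h1 : {h : G | ∀ x ∈ hfin.toFinset, ap h x = ap g x} ∈ 𝓝 g :=
        (mem_nhds_iff' _ _).2 ⟨hfin.toFinset, fun h hh => hh⟩
      obtain ⟨b, hb1, hb2⟩ := mem_closure_iff_nhds.1 hg _ h1
      refine ⟨b, hb2, fun a ha x hx => hb1 x ?_⟩
      rw [hfin.mem_toFinset]
      exact mem_biUnion ha hx)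
  refine ⟨f, hf, ?_⟩
  intro U hU
  obtain ⟨F, hF⟩ := (mem_nhds_iff' _ _).1 hU
  have h1 : ∀ x, ∀ᶠ n in atTop, ap (f n) x = ap g x := by
    intro x
    by_cases h : ∀ n, ap (f n) x = ap g x
    · exact Filter.Eventually.of_forall h
    · push Not at h
      obtain ⟨m, hm⟩ := h
      filter_upwards [Filter.eventually_gt_atTop m] with n hn
      exact hr m n hn x hm
  have h2 : ∀ᶠ n in atTop, ∀ x ∈ F, ap (f n) x = ap g x :=
    (Filter.eventually_all_finset F).2 fun x _ => h1 x
  exact Filter.mem_map.2 (h2.mono fun n hn => hF _ hn)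

section Min

variable {σ : TopologicalSpace G} (hσ : @IsTopologicalGroup G σ _) (hσ2 : @T2Space G σ)

include hσ hσ2 in
lemma nh_conj {s t : G} (h : s ≠ t) : {g : G | g * s * g⁻¹ ≠ t} ∈ @nhds G σ 1 := by
  have hc : @Continuous G G σ σ (fun g => g * s * g⁻¹) := by fun_prop
  have h1 : IsOpen[σ] {g : G | g * s * g⁻¹ ≠ t} :=
    (@isClosed_singleton G σ _ t).isOpen_compl.preimage hc
  refine h1.mem_nhds ?_
  simpa using h

include hσ hσ2 in
lemma nh_pair {a b : X} (hab : a ≠ b) : {g : G | ap g a = a ∨ ap g a = b} ∈ @nhds G σ 1 := by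
  classical
  obtain ⟨E, hE1, hE2⟩ := Set.Infinite.exists_subset_card_eq
    (Set.Finite.infinite_compl (s := ({a, b} : Set X)) (by simp)) 3
  have hEa : ∀ e ∈ E, e ≠ a ∧ e ≠ b := by
    intro e he
    have := hE1 he
    simpa [not_or] using this
  have hO : ∀ e ∈ E, {h : G | h * sw a e * h⁻¹ ≠ sw b e ∧ h * sw b e * h⁻¹ ≠ sw a e} ∈
      @nhds G σ 1 := by
    intro e he
    have h1 : sw a e ≠ sw b e := by
      intro h
      have h2 : ap (sw a e) a = ap (sw b e) a := by rw [h]
      rw [sw_left, sw_ne hab (hEa e he).1.symm] at h2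
      exact (hEa e he).1 h2
    exact Filter.inter_mem (nh_conj hσ hσ2 h1) (nh_conj hσ hσ2 h1.symm)
  have hO' : {h : G | ∀ e ∈ E, h * sw a e * h⁻¹ ≠ sw b e ∧ h * sw b e * h⁻¹ ≠ sw a e} ∈
      @nhds G σ 1 := by
    have := (Filter.biInter_finset_mem (f := @nhds G σ 1) E).2 hO
    refine Filter.mem_of_superset this ?_
    intro h hh e he
    exact mem_iInter₂.1 hh e he
  have hc : @Continuous G G σ σ (fun g => g * sw a b * g⁻¹ * sw a b) := by fun_prop
  have hct := @Continuous.tendsto G G σ σ _ hc 1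
  have h11 : (1 : G) * sw a b * 1⁻¹ * sw a b = 1 := by
    rw [one_mul, inv_one, mul_one]
    apply ext
    intro x
    rw [ap_mul, ap_one]
    by_cases h1 : x = a
    · rw [h1, sw_left, sw_right]
    by_cases h2 : x = b
    · rw [h2, sw_right, sw_left]
    rw [sw_ne h1 h2, sw_ne h1 h2]
  rw [h11] at hct
  refine Filter.mem_of_superset (hct hO') ?_
  intro g hg
  rw [mem_preimage, sw_conj] at hg
  set c := ap g a with hc'
  set d := ap g b with hd
  change c = a ∨ c = b
  set u : G := sw c d * sw a b with hu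
  obtain ⟨e, he, hecd⟩ := Finset.exists_mem_notMem_of_card_lt_card (s := {c, d}) (t := E)
    (lt_of_le_of_lt (Finset.card_le_two) (by omega))
  simp only [Finset.mem_insert, Finset.mem_singleton, not_or] at hecd
  obtain ⟨hea, heb⟩ := hEa e he
  have hue : ap u e = e := by
    rw [hu, ap_mul, sw_ne hea heb, sw_ne hecd.1 hecd.2]
  have hb : b = c ∨ b = d := by
    by_contra h
    push Not at h
    have h1 : ap u a = b := by
      rw [hu, ap_mul, sw_left, sw_ne h.1 h.2]
    apply (hg e he).1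
    rw [sw_conj, h1, hue]
  have ha : a = c ∨ a = d := by
    by_contra h
    push Not at h
    have h1 : ap u b = a := by
      rw [hu, ap_mul, sw_right, sw_ne h.1 h.2]
    apply (hg e he).2
    rw [sw_conj, h1, hue]
  rcases ha with ha | ha
  · exact Or.inl ha.symm
  · rcases hb with hb | hb
    · exact Or.inr hb.symm
    · exact absurd (ha.trans hb.symm) hab

include hσ hσ2 in
lemma nh_stab (a : X) : {g : G | ap g a = a} ∈ @nhds G σ 1 := by
  classical
  obtain ⟨b, hb⟩ := Infinite.exists_notMem_finset ({a} : Finset X)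
  obtain ⟨b', hb'⟩ := Infinite.exists_notMem_finset ({a, b} : Finset X)
  simp only [Finset.mem_singleton, Finset.mem_insert, not_or] at hb hb'
  filter_upwards [nh_pair hσ hσ2 (Ne.symm hb), nh_pair hσ hσ2 (Ne.symm hb'.1)] with g h1 h2
  rcases h1 with h1 | h1
  · exact h1
  · rcases h2 with h2 | h2
    · exact h2
    · exact absurd (h2.symm.trans h1) hb'.2

end Min

lemma le_of_one {t s : TopologicalSpace G}
    (ht : @IsTopologicalGroup G t _) (hs : @IsTopologicalGroup G s _)
    (h : @nhds G t 1 ≤ @nhds G s 1) : t ≤ s := by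
  apply le_of_nhds_le_nhds
  intro x
  have h1 := @map_mul_left_nhds_one G t _ _ x
  have h2 := @map_mul_left_nhds_one G s _ _ x
  rw [← h1, ← h2]
  exact Filter.map_mono h

lemma mini : Mini G := by
  intro σ hle hσ hσ2
  refine le_antisymm ?_ hle
  refine le_of_one hσ inferInstance ?_
  intro U hU
  obtain ⟨F, hF⟩ := (mem_nhds_iff' _ _).1 hU
  have h1 : {g : G | ∀ x ∈ F, ap g x = x} ∈ @nhds G σ 1 :=
    (Filter.eventually_all_finset (l := @nhds G σ 1) F).2 fun x _ => nh_stab hσ hσ2 x
  exact Filter.mem_of_superset h1 fun g hg => hF g hg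

end Pool.Agent.N515.LM.M5

namespace Pool.Agent.N515.LM

/-- finitely supported permutations of an uncountable set -/
theorem t_LM5 : St_LM5 :=
  ⟨M5.G, inferInstance, inferInstance, inferInstance, inferInstance, M5.mini, M5.fu, M5.not_metr⟩

end Pool.Agent.N515.LM
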