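import Pool.Agent.N515.LM.Stm2
import Pool.Agent.R508.DACBase

/-!
# Project LM (helper515), leaf LM/6: a locally minimal group of countable tightness that is not
sequential (helper413)
-/

set_option autoImplicit false

open Topology Set Filter

namespace Pool.Agent.N515.LM

/-- a transposition -/
def m6s : Equiv.Perm (Fin 3) := Equiv.swap 0 1

/-- a cycle of length three -/
def m6c : Equiv.Perm (Fin 3) := Equiv.swap 0 1 * Equiv.swap 1 2

theorem m6_ss : m6s * m6s = 1 := by decide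

theorem m6_sinv : m6s⁻¹ = m6s := by decide

theorem m6_s1 : m6s ≠ 1 := by decide

theorem m6_c1 : ¬ (m6c⁻¹ * m6s * m6c = 1 ∨ m6c⁻¹ * m6s * m6c = m6s) := by decide

/-- the functions which are `1` almost everywhere for a free ultrafilter -/
def m6G : Subgroup (ℕ → Equiv.Perm (Fin 3)) where
  carrier := {g | ∀ᶠ n in (hyperfilter ℕ : Filter ℕ), g n = 1}
  mul_mem' := by
    intro a b ha hb
    filter_upwards [ha, hb] with n h1 h2
    rw [Pi.mul_apply, h1, h2, one_mul]
  one_mem' := by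
    filter_upwards with n
    rfl
  inv_mem' := by
    intro a ha
    filter_upwards [ha] with n h1
    rw [Pi.inv_apply, h1, inv_one]

theorem m6_mem (g : ℕ → Equiv.Perm (Fin 3)) :
    g ∈ m6G ↔ ∀ᶠ n in (hyperfilter ℕ : Filter ℕ), g n = 1 := Iff.rfl

theorem m6_fin (g : ℕ → Equiv.Perm (Fin 3)) (h : {n | g n ≠ 1}.Finite) : g ∈ m6G := by
  rw [m6_mem]
  have h1 := hyperfilter_le_cofinite (α := ℕ) (Set.Finite.compl_mem_cofinite h)
  filter_upwards [h1] with n hn
  by_contra hcon
  exact hn hcon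

/-- the subgroups `U_A` -/
def m6U (A : Set ℕ) : Set m6G := {h | (∀ n, h.1 n = 1 ∨ h.1 n = m6s) ∧ {n | h.1 n ≠ 1}.Finite ∧
  ∀ n ∉ A, h.1 n = 1}

theorem m6U_mono {A B : Set ℕ} (h : A ⊆ B) : m6U A ⊆ m6U B :=
  fun _ hx => ⟨hx.1, hx.2.1, fun n hn => hx.2.2 n fun h' => hn (h h')⟩

theorem m6U_one (A : Set ℕ) : (1 : m6G) ∈ m6U A := by
  refine ⟨fun n => Or.inl rfl, ?_, fun n _ => rfl⟩
  have h : {n : ℕ | (1 : m6G).1 n ≠ 1} = ∅ := by
    ext n
    simp
  rw [h]
  exact Set.finite_empty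

theorem m6U_mul {A : Set ℕ} {x y : m6G} (hx : x ∈ m6U A) (hy : y ∈ m6U A) : x * y ∈ m6U A := by
  refine ⟨fun n => ?_, (hx.2.1.union hy.2.1).subset fun n hn => ?_, fun n hn => ?_⟩
  · change x.1 n * y.1 n = 1 ∨ x.1 n * y.1 n = m6s
    rcases hx.1 n with h1 | h1 <;> rcases hy.1 n with h2 | h2 <;> rw [h1, h2]
    · left; rw [one_mul]
    · right; rw [one_mul]
    · right; rw [mul_one]
    · left; exact m6_ss
  · by_contra hcon
    rw [Set.mem_union, not_or] at hcon
    apply hn
    change x.1 n * y.1 n = 1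
    have h1 : x.1 n = 1 := not_not.1 hcon.1
    have h2 : y.1 n = 1 := not_not.1 hcon.2
    rw [h1, h2, one_mul]
  · change x.1 n * y.1 n = 1
    rw [hx.2.2 n hn, hy.2.2 n hn, one_mul]

theorem m6U_inv {A : Set ℕ} {x : m6G} (hx : x ∈ m6U A) : x⁻¹ ∈ m6U A := by
  refine ⟨fun n => ?_, hx.2.1.subset fun n hn => ?_, fun n hn => ?_⟩
  · change (x.1 n)⁻¹ = 1 ∨ (x.1 n)⁻¹ = m6s
    rcases hx.1 n with h1 | h1 <;> rw [h1]
    · left; rw [inv_one]
    · right; exact m6_sinv
  · intro h
    apply hn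
    change (x.1 n)⁻¹ = 1
    rw [h, inv_one]
  · change (x.1 n)⁻¹ = 1
    rw [hx.2.2 n hn, inv_one]

theorem m6U_conj {A : Set ℕ} (g : m6G) {x : m6G} (hx : x ∈ m6U (A ∩ {n | g.1 n = 1})) :
    g * x * g⁻¹ ∈ m6U A := by
  have h : g * x * g⁻¹ = x := by
    refine Subtype.ext (funext fun n => ?_)
    change g.1 n * x.1 n * (g.1 n)⁻¹ = x.1 n
    by_cases hn : g.1 n = 1
    · rw [hn, one_mul, inv_one, mul_one]
    · rw [hx.2.2 n fun h => hn h.2, mul_one, mul_inv_cancel]
  rw [h]
  exact m6U_mono inter_subset_left hx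

/-- the filter of neighbourhoods of `1` -/
def m6F : Filter m6G where
  sets := {S | ∃ A ∈ hyperfilter ℕ, m6U A ⊆ S}
  univ_sets := ⟨Set.univ, univ_mem, Set.subset_univ _⟩
  sets_of_superset := by
    rintro S T ⟨A, hA, h⟩ hST
    exact ⟨A, hA, h.trans hST⟩
  inter_sets := by
    rintro S T ⟨A, hA, h⟩ ⟨B, hB, h'⟩
    exact ⟨A ∩ B, inter_mem hA hB, Set.subset_inter ((m6U_mono inter_subset_left).trans h)
      ((m6U_mono inter_subset_right).trans h')⟩

theorem m6F_mem {S : Set m6G} : S ∈ m6F ↔ ∃ A ∈ hyperfilter ℕ, m6U A ⊆ S := Iff.rfl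

theorem m6U_countable : (m6U Set.univ).Countable := by
  classical
  have h : m6U Set.univ ⊆ Set.range (fun F : Finset ℕ =>
      (⟨fun n => if n ∈ F then m6s else 1, m6_fin _ ((F.finite_toSet).subset fun n hn => by
        by_contra hcon
        exact hn (if_neg hcon))⟩ : m6G)) := by
    intro x hx
    refine ⟨hx.2.1.toFinset, Subtype.ext (funext fun n => ?_)⟩
    change (if n ∈ hx.2.1.toFinset then m6s else 1) = x.1 n
    by_cases hn : x.1 n = 1
    · rw [if_neg, hn]
      rw [Set.Finite.mem_toFinset]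
      exact fun h => h hn
    · rw [if_pos]
      · exact ((hx.1 n).resolve_left hn).symm
      · rw [Set.Finite.mem_toFinset]
        exact hn
  exact (Set.countable_range _).mono h

theorem t_LM6 : St_LM6 := by
  classical
  obtain ⟨τ, hτ, hτ1⟩ := Pool.Agent.R508.DAC.exists_group_topology m6F
    (by
      intro S hS
      obtain ⟨A, hA, h⟩ := m6F_mem.1 hS
      exact h (m6U_one A))
    (by
      intro S hS
      obtain ⟨A, hA, h⟩ := m6F_mem.1 hS
      rw [Filter.mem_map, Filter.mem_prod_iff]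
      refine ⟨m6U A, ⟨A, hA, subset_rfl⟩, m6U A, ⟨A, hA, subset_rfl⟩, ?_⟩
      rintro ⟨x, y⟩ ⟨hx, hy⟩
      exact h (m6U_mul hx hy))
    (by
      intro S hS
      obtain ⟨A, hA, h⟩ := m6F_mem.1 hS
      exact ⟨A, hA, fun x hx => h (m6U_inv hx)⟩)
    (by
      intro g S hS
      obtain ⟨A, hA, h⟩ := m6F_mem.1 hS
      exact ⟨A ∩ {n | g.1 n = 1}, inter_mem hA ((m6_mem _).1 g.2), fun x hx => h (m6U_conj g hx)⟩)
  have hU : ∀ A ∈ hyperfilter ℕ, m6U A ∈ 𝓝 (1 : m6G) := by
    intro A hA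
    rw [hτ1]
    exact ⟨A, hA, subset_rfl⟩
  have hH : m6U Set.univ ∈ 𝓝 (1 : m6G) := hU _ univ_mem
  have hcof : ∀ n : ℕ, ({n}ᶜ : Set ℕ) ∈ hyperfilter ℕ := fun n =>
    hyperfilter_le_cofinite (α := ℕ) (Set.finite_singleton n).compl_mem_cofinite
  have hT2 : T2Space m6G := by
    refine IsTopologicalGroup.t2Space_of_one_sep fun x hx => ?_
    obtain ⟨n, hn⟩ : ∃ n, x.1 n ≠ 1 := by
      by_contra hcon
      push Not at hcon
      exact hx (Subtype.ext (funext hcon))
    exact ⟨m6U {n}ᶜ, hU _ (hcof n), fun h => hn (h.2.2 n (by simp))⟩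
  refine ⟨m6G, inferInstance, τ, hτ, hT2, ⟨m6U Set.univ, hH, ?_⟩, ?_, ?_⟩
  · intro σ hσ hσg _ hσH
    refine le_antisymm ?_ hσ
    refine Pool.Agent.R508.DAC.le_of_nhds_one_le hσg hτ ?_
    rw [hτ1]
    intro S hS
    obtain ⟨A, hA, h⟩ := m6F_mem.1 hS
    -- the conjugating element
    let k : m6G := ⟨fun n => if n ∈ A then 1 else m6c, by
      rw [m6_mem]
      filter_upwards [hA] with n hn
      rw [if_pos hn]⟩
    have h0 := @Pool.Agent.R508.DAC.tendsto_conj_one m6G _ σ hσg k⁻¹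
    have h1 := h0 hσH
    refine Filter.mem_of_superset (Filter.inter_mem hσH h1) ?_
    rintro x ⟨hx, hx'⟩
    refine h ⟨hx.1, hx.2.1, fun n hn => ?_⟩
    rcases hx.1 n with h2 | h2
    · exact h2
    · exfalso
      have h3 := hx'.1 n
      have h4 : (k⁻¹ * x * k⁻¹⁻¹).1 n = m6c⁻¹ * m6s * m6c := by
        change (if n ∈ A then 1 else m6c)⁻¹ * x.1 n * ((if n ∈ A then 1 else m6c)⁻¹)⁻¹ = _
        rw [if_neg hn, h2, inv_inv]
      rw [h4] at h3
      exact m6_c1 h3
  · intro A x hx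
    have hnx : (fun y => x⁻¹ * y) ⁻¹' (m6U Set.univ) ∈ 𝓝 x := by
      have h1 : ContinuousAt (fun y : m6G => x⁻¹ * y) x := by fun_prop
      have h2 : m6U Set.univ ∈ 𝓝 (x⁻¹ * x) := by
        rw [inv_mul_cancel]
        exact hH
      exact h1 h2
    refine ⟨A ∩ (fun y => x⁻¹ * y) ⁻¹' (m6U Set.univ), inter_subset_left, ?_, ?_⟩
    · refine Set.Countable.mono inter_subset_right ?_
      refine Set.Countable.preimage_of_injOn m6U_countable ?_
      intro a _ b _ hab
      exact mul_left_cancel hab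
    · rw [mem_closure_iff_nhds] at hx ⊢
      intro t ht
      obtain ⟨y, hy1, hy2⟩ := hx _ (inter_mem ht hnx)
      exact ⟨y, hy1.1, hy2, hy1.2⟩
  · intro hseq
    have hC : IsSeqClosed ({1}ᶜ : Set m6G) := by
      intro x a hx hxa
      by_contra ha
      have ha1 : a = 1 := by
        by_contra h
        exact ha h
      rw [ha1] at hxa
      have h1 : ∀ k, ∃ n, (x k).1 n ≠ 1 := by
        intro k
        by_contra hcon
        push Not at hcon
        exact hx k (Subtype.ext (funext hcon))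
      choose m hm using h1
      have h2 : ∀ A ∈ hyperfilter ℕ, ∀ᶠ k in atTop, m k ∈ A := by
        intro A hA
        filter_upwards [hxa (hU A hA)] with k hk
        by_contra hcon
        exact hm k (hk.2.2 _ hcon)
      have h3 : Tendsto m atTop atTop := by
        refine tendsto_atTop.2 fun b => ?_
        refine h2 (Set.Ici b) (hyperfilter_le_cofinite (α := ℕ) ?_)
        rw [Filter.mem_cofinite, Set.compl_Ici]
        exact Set.finite_Iio b
      obtain ⟨φ, hφ, hφ'⟩ := strictMono_subseq_of_tendsto_atTop h3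
      rcases (hyperfilter ℕ).mem_or_compl_mem (Set.range fun j => m (φ (2 * j))) with hE | hE
      · obtain ⟨K, hK⟩ := eventually_atTop.1 (h2 _ hE)
        obtain ⟨i, hi⟩ := hK (φ (2 * K + 1)) (le_trans (by omega) (hφ.le_apply (x := 2 * K + 1)))
        have := hφ'.injective hi
        omega
      · obtain ⟨K, hK⟩ := eventually_atTop.1 (h2 _ hE)
        exact hK (φ (2 * K)) (le_trans (by omega) (hφ.le_apply (x := 2 * K))) ⟨K, rfl⟩
    have hCc : IsClosed ({1}ᶜ : Set m6G) := hC.isClosed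
    have hO : IsOpen ({1} : Set m6G) := by
      rw [← isClosed_compl_iff]
      exact hCc
    have h1 : ({1} : Set m6G) ∈ 𝓝 (1 : m6G) := hO.mem_nhds rfl
    rw [hτ1] at h1
    obtain ⟨A, hA, h⟩ := m6F_mem.1 h1
    obtain ⟨n, hn⟩ := (hyperfilter ℕ).nonempty_of_mem hA
    have hfin : {j | (fun j => if j = n then m6s else (1 : Equiv.Perm (Fin 3))) j ≠ 1}.Finite :=
      (Set.finite_singleton n).subset fun j hj => by
        by_contra hcon
        exact hj (if_neg hcon)
    let g : m6G := ⟨fun j => if j = n then m6s else 1, m6_fin _ hfin⟩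
    have hg : g ∈ m6U A := by
      refine ⟨fun j => ?_, hfin, fun j hj => ?_⟩
      · change (if j = n then m6s else 1) = 1 ∨ (if j = n then m6s else 1) = m6s
        by_cases hjn : j = n
        · right; rw [if_pos hjn]
        · left; rw [if_neg hjn]
      · change (if j = n then m6s else 1) = 1
        rw [if_neg]
        rintro rfl
        exact hj hn
    have hg1 : g = 1 := h hg
    have h5 := congrFun (congrArg Subtype.val hg1) n
    change (if n = n then m6s else 1) = 1 at h5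
    rw [if_pos rfl] at h5
    exact m6_s1 h5

end Pool.Agent.N515.LM
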