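import Pool.Agent.N515.LM.Stm

set_option autoImplicit false

open Topology Set

namespace Pool.Agent.N515.LM

/-- a locally minimal group of countable tightness that is not sequential -/
def St_LM6 : Prop := ∃ (G : Type) (_ : Group G) (_ : TopologicalSpace G), IsTopologicalGroup G ∧
  T2Space G ∧ (∃ V ∈ 𝓝 (1 : G), VMin G V) ∧ CTight G ∧ ¬ SequentialSpace G

end Pool.Agent.N515.LM
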